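import Pool.Agent.W586.CS.Stm

set_option autoImplicit false

namespace Pool.Agent.W32.CS

open Pool.Agent.W586.CS

variable {d : ℕ}

theorem mem_fl (j x : Fin d) (I : Finset (Fin d)) :
    x ∈ fl j I ↔ (x ≠ j ∧ x ∈ I) ∨ (x = j ∧ j ∉ I) := by
  unfold fl
  by_cases h : j ∈ I
  · rw [if_pos h, Finset.mem_erase]
    constructor
    · intro hx; exact Or.inl hx
    · rintro (hx | hx)
      · exact hx
      · exact absurd h hx.2
  · rw [if_neg h, Finset.mem_insert]
    constructor
    · rintro (hx | hx)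
      · exact Or.inr ⟨hx, h⟩
      · exact Or.inl ⟨fun hh => h (hh ▸ hx), hx⟩
    · rintro (hx | hx)
      · exact Or.inr hx.2
      · exact Or.inl hx.1

theorem fl_fl (j : Fin d) (I : Finset (Fin d)) : fl j (fl j I) = I := by
  ext x
  rw [mem_fl, mem_fl, mem_fl]
  by_cases hx : x = j
  · subst hx
    by_cases h : x ∈ I <;> simp [h]
  · simp [hx]

theorem fl_comm (j k : Fin d) (I : Finset (Fin d)) : fl j (fl k I) = fl k (fl j I) := by
  by_cases hjk : j = k
  · rw [hjk]
  ext x
  rw [mem_fl, mem_fl, mem_fl, mem_fl, mem_fl, mem_fl]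
  by_cases hx : x = j
  · subst hx
    by_cases h : x ∈ I <;> simp [h, hjk]
  · by_cases hx2 : x = k
    · subst hx2
      by_cases h : x ∈ I <;> simp [h, hjk, hx]
    · simp [hx, hx2]

theorem sg_fl_ge (j k : Fin d) (I : Finset (Fin d)) (h : k ≤ j) : sg k (fl j I) = sg k I := by
  unfold sg
  have : (fl j I).filter (fun i => i < k) = I.filter (fun i => i < k) := by
    ext x
    rw [Finset.mem_filter, Finset.mem_filter, mem_fl]
    constructor
    · rintro ⟨hx | hx, hlt⟩
      · exact ⟨hx.2, hlt⟩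
      · exact absurd (hx.1 ▸ hlt) (not_lt.mpr h)
    · rintro ⟨hx, hlt⟩
      exact ⟨Or.inl ⟨fun he => absurd (he ▸ hlt) (not_lt.mpr h), hx⟩, hlt⟩
  rw [this]

theorem sg_fl_lt (j k : Fin d) (I : Finset (Fin d)) (h : j < k) : sg k (fl j I) = -sg k I := by
  have key : ∀ J : Finset (Fin d), j ∉ J → sg k (insert j J) = -sg k J := by
    intro J hJ
    unfold sg
    have : (insert j J).filter (fun i => i < k) = insert j (J.filter (fun i => i < k)) := by
      rw [Finset.filter_insert, if_pos h]
    rw [this, Finset.card_insert_of_notMem (by simp [hJ]), pow_succ]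
    ring
  unfold fl
  by_cases hj : j ∈ I
  · rw [if_pos hj]
    have h1 := key (I.erase j) (Finset.notMem_erase j I)
    rw [Finset.insert_erase hj] at h1
    rw [h1, neg_neg]
  · rw [if_neg hj, key I hj]

theorem sg_sq (j : Fin d) (I : Finset (Fin d)) : sg j I * sg j I = 1 := by
  unfold sg
  rw [← mul_pow]; norm_num

theorem ep_sq (j : Fin d) (I : Finset (Fin d)) : ep j I * ep j I = 1 := by
  unfold ep
  split_ifs <;> norm_num

theorem ep_fl (j : Fin d) (I : Finset (Fin d)) : ep j (fl j I) = -ep j I := by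
  unfold ep
  have : j ∈ fl j I ↔ j ∉ I := by rw [mem_fl]; simp
  by_cases h : j ∈ I
  · rw [if_neg (fun hh => (this.mp hh) h), if_pos h]
  · rw [if_pos (this.mpr h), if_neg h]; norm_num

theorem ep_fl_ne (j k : Fin d) (I : Finset (Fin d)) (h : j ≠ k) : ep j (fl k I) = ep j I := by
  unfold ep
  have : j ∈ fl k I ↔ j ∈ I := by rw [mem_fl]; simp [h]
  by_cases hj : j ∈ I
  · rw [if_pos (this.mpr hj), if_pos hj]
  · rw [if_neg (fun hh => hj (this.mp hh)), if_neg hj]

theorem sg_anti (j k : Fin d) (I : Finset (Fin d)) (h : j ≠ k) :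
    sg j I * sg k (fl j I) = -(sg k I * sg j (fl k I)) := by
  rcases lt_or_gt_of_ne h with h | h
  · rw [sg_fl_lt j k I h, sg_fl_ge k j I h.le]; ring
  · rw [sg_fl_ge j k I h.le, sg_fl_lt k j I h]; ring

theorem main : S_REL := by
  intro d ι
  refine ⟨?_, ?_, ?_, ?_, ?_, ?_⟩
  · intro j f
    funext I a
    show sg j I • (sg j (fl j I) • f (fl j (fl j I)) a) = f I a
    rw [smul_smul, fl_fl, sg_fl_ge j j I le_rfl, sg_sq, one_smul]
  · intro j k f hjk
    funext I a
    show sg j I • (sg k (fl j I) • f (fl k (fl j I)) a) =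
      -(sg k I • (sg j (fl k I) • f (fl j (fl k I)) a))
    rw [smul_smul, smul_smul, fl_comm k j, sg_anti j k I hjk, neg_smul]
  · intro j f
    funext I a
    show (ep j I * sg j I) • ((ep j (fl j I) * sg j (fl j I)) • f (fl j (fl j I)) a) = -(f I a)
    rw [smul_smul, fl_fl, sg_fl_ge j j I le_rfl, ep_fl]
    have : ep j I * sg j I * (-ep j I * sg j I) = -((ep j I * ep j I) * (sg j I * sg j I)) := by ring
    rw [this, ep_sq, sg_sq]; simp
  · intro j k f hjk
    funext I a
    show (ep j I * sg j I) • ((ep k (fl j I) * sg k (fl j I)) • f (fl k (fl j I)) a) =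
      -((ep k I * sg k I) • ((ep j (fl k I) * sg j (fl k I)) • f (fl j (fl k I)) a))
    rw [smul_smul, smul_smul, fl_comm k j, ep_fl_ne k j I hjk.symm, ep_fl_ne j k I hjk, ← neg_smul]
    congr 1
    have := sg_anti j k I hjk
    linear_combination (ep j I * ep k I) * this
  · intro j k f
    funext I a
    show sg j I • ((ep k (fl j I) * sg k (fl j I)) • f (fl k (fl j I)) a) =
      -((ep k I * sg k I) • (sg j (fl k I) • f (fl j (fl k I)) a))
    rw [smul_smul, smul_smul, fl_comm k j, ← neg_smul]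
    congr 1
    by_cases hjk : j = k
    · subst hjk
      rw [ep_fl, sg_fl_ge j j I le_rfl]; ring
    · rw [ep_fl_ne k j I (Ne.symm hjk)]
      have := sg_anti j k I hjk
      linear_combination (ep k I) * this
  · intro j f I a
    show (ep j I * sg j I) • (sg j (fl j I) • f (fl j (fl j I)) a) = ep j I • f I a
    rw [smul_smul, fl_fl, sg_fl_ge j j I le_rfl, mul_assoc, sg_sq, mul_one]

end Pool.Agent.W32.CS
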